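import Mathlib

set_option autoImplicit false

namespace Pool.Agent.Results.MP_3984bd_an.Yes

open Set Filter Topology Polynomial Module

noncomputable def w (k : ℕ) : ℝ := 1 / (((Nat.unpair k).1 + (Nat.unpair k).2 + 1 : ℕ) : ℝ)

theorem w_nonneg (k : ℕ) : 0 ≤ w k := by unfold w; positivity

/-- a tall ideal of subsets of `ℕ` -/
def Sm (I : Set ℕ) : Prop := ∀ m, Summable ({k | k * k + m ∈ I}.indicator w)

theorem Sm.mono {I J K : Set ℕ} (hI : Sm I) (hJ : Sm J) (h : K ⊆ I ∪ J) : Sm K := fun m => by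
  refine ((hI m).add (hJ m)).of_nonneg_of_le (indicator_nonneg fun k _ => w_nonneg k) fun k => ?_
  have a := indicator_nonneg (s := {k | k * k + m ∈ I}) (fun k _ => w_nonneg k) k
  have b := indicator_nonneg (s := {k | k * k + m ∈ J}) (fun k _ => w_nonneg k) k
  by_cases hk : k ∈ {k | k * k + m ∈ K}
  · rw [indicator_of_mem hk]
    rcases h hk with h | h
    · rw [indicator_of_mem (s := {k | k * k + m ∈ I}) h]; linarith
    · rw [indicator_of_mem (s := {k | k * k + m ∈ J}) h]; linarith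
  · rw [indicator_of_notMem hk]; linarith

theorem sm_of_bdd {I : Set ℕ} (h : ∀ m, ∃ c, ∀ k, k * k + m ∈ I → k ≤ c) : Sm I := fun m => by
  obtain ⟨c, hc⟩ := h m
  refine summable_of_ne_finset_zero (s := Finset.range (c + 1)) fun k hk => ?_
  exact indicator_of_notMem (s := {k | k * k + m ∈ I})
    (fun h => hk (Finset.mem_range.2 (Nat.lt_succ_of_le (hc k h)))) w

theorem sm_le (n : ℕ) : Sm (Iic n) :=
  sm_of_bdd fun m => ⟨n, fun k hk => by have := Nat.le_mul_self k; have : _ ≤ n := hk; omega⟩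

theorem sm_sq : Sm {i | IsSquare (i + 1)} := sm_of_bdd fun m => ⟨m, fun k ⟨l, hl⟩ => by
  have : k < l := by
    by_contra h
    have := Nat.mul_self_le_mul_self (not_lt.1 h)
    omega
  have := Nat.mul_self_le_mul_self (show k + 1 ≤ l from this)
  nlinarith⟩

theorem Sm.pred {I : Set ℕ} (hI : Sm I) : Sm {i | i + 1 ∈ I} := fun m => hI (m + 1)

theorem tall {A : Set ℕ} (hA : A.Infinite) : ∃ I ⊆ A, I.Infinite ∧ Sm I := by
  choose h h1 h2 using fun s => hA.exists_gt (4 ^ s * 4 ^ s + s)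
  refine ⟨range h, range_subset_iff.2 h1, infinite_of_forall_exists_gt fun a =>
    ⟨h a, mem_range_self a, lt_of_le_of_lt (Nat.le_add_left _ _) (h2 a)⟩, fun m => ?_⟩
  rw [← summable_subtype_iff_indicator]
  choose σ hσ using fun k : {k | k * k + m ∈ range h} => k.2
  have hi : Function.Injective σ := fun a b e => Subtype.ext (Nat.mul_self_inj.1 (by
    have := hσ a; have := hσ b; rw [e] at *; omega))
  refine ((summable_geometric_two.mul_left (2 ^ m)).comp_injective hi).of_nonneg_of_le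
    (fun k => w_nonneg _) fun k => ?_
  change w k ≤ 2 ^ m * (1 / 2) ^ σ k
  have e := hσ k
  have e2 := h2 (σ k)
  generalize σ k = s at *
  have h3 : 2 ^ s ≤ 2 ^ m * ((Nat.unpair k).1 + (Nat.unpair k).2 + 1) := by
    rcases le_total s m with hs | hs
    · exact (Nat.pow_le_pow_right two_pos hs).trans (Nat.le_mul_of_pos_right _ (Nat.succ_pos _))
    · have h4 : 4 ^ s < (k : ℕ) := Nat.mul_self_lt_mul_self_iff.1 (by omega)
      have h5 := Nat.pair_lt_max_add_one_sq (Nat.unpair k).1 (Nat.unpair k).2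
      rw [Nat.pair_unpair] at h5
      have h6 : (2 ^ s) ^ 2 < (max (Nat.unpair k).1 (Nat.unpair k).2 + 1) ^ 2 := by
        rw [← pow_mul, mul_comm, pow_mul]; exact h4.trans h5
      have h7 := lt_of_pow_lt_pow_left₀ 2 (Nat.zero_le _) h6
      exact le_trans (by omega) (Nat.le_mul_of_pos_left _ (by positivity))
  rw [w, one_div_pow, mul_one_div, div_le_div_iff₀ (by positivity) (by positivity), one_mul]
  exact_mod_cast h3

theorem avoid {I : Set ℕ} (hI : Sm I) (j c : ℕ) : ∃ k, c ≤ k ∧ (Nat.unpair k).1 = j ∧ k * k ∉ I := by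
  by_contra h
  push Not at h
  have hi : Function.Injective fun a => Nat.pair j (a + c) := fun a b e => by
    simpa using (Nat.pair_eq_pair.1 e).2
  refine Real.not_summable_one_div_natCast ((summable_nat_add_iff (j + c + 1)).1
    (((hI 0).comp_injective hi).congr fun a => ?_))
  rw [Function.comp_apply, indicator_of_mem (s := {k | k * k + 0 ∈ I})
    (h _ ((Nat.le_add_left c a).trans (Nat.right_le_pair _ _)) (by simp)), w, Nat.unpair_pair]
  congr 2
  ring

variable {𝕜 : Type} [RCLike 𝕜]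

section
variable {E : Type} [AddCommGroup E] [Module 𝕜 E] (b : Basis ℕ 𝕜 E)

/-- all seminorms vanishing on the basis vectors outside a set of the ideal -/
def P : SeminormFamily 𝕜 E {q : Seminorm 𝕜 E // Sm {n | q (b n) ≠ 0}} := Subtype.val

theorem summ (u : ℕ → ℝ) (x : E) : Summable fun n => |u n| * ‖b.repr x n‖ :=
  summable_of_ne_finset_zero (s := (b.repr x).support) fun n hn => by
    rw [Finsupp.notMem_support_iff.1 hn, norm_zero, mul_zero]

noncomputable def pu (u : ℕ → ℝ) : Seminorm 𝕜 E :=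
  Seminorm.of (fun x => ∑' n, |u n| * ‖b.repr x n‖)
    (fun x y => by
      rw [← (summ b u x).tsum_add (summ b u y)]
      refine (summ b u _).tsum_le_tsum (fun n => ?_) ((summ b u x).add (summ b u y))
      rw [← mul_add, map_add]
      exact mul_le_mul_of_nonneg_left (norm_add_le _ _) (abs_nonneg _))
    (fun a x => by
      rw [← tsum_mul_left]
      refine tsum_congr fun n => ?_
      rw [map_smul, Finsupp.smul_apply, norm_smul]
      ring)

theorem pu_apply (u : ℕ → ℝ) (x : E) : pu b u x = ∑' n, |u n| * ‖b.repr x n‖ := rfl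

theorem pu_sm {u : ℕ → ℝ} {I : Set ℕ} (hI : Sm I) (h : ∀ n ∉ I, u n = 0) :
    Sm {n | pu b u (b n) ≠ 0} := by
  refine hI.mono hI fun n hn => Or.inl (by_contra fun h' => hn ?_)
  rw [pu_apply, tsum_eq_single n, h n h', abs_zero, zero_mul]
  intro i hi
  rw [b.repr_self, Finsupp.single_eq_of_ne hi, norm_zero, mul_zero]

theorem map_sum_le (q : Seminorm 𝕜 E) (s : Finset ℕ) (f : ℕ → 𝕜) :
    q (∑ n ∈ s, f n • b n) ≤ ∑ n ∈ s, q (b n) * ‖f n‖ := by
  induction s using Finset.induction_on with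
  | empty => simp
  | insert a s ha ih =>
    rw [Finset.sum_insert ha, Finset.sum_insert ha]
    refine (map_add_le_add q _ _).trans (add_le_add ?_ ih)
    rw [map_smul_eq_mul, mul_comm]

theorem le_pu (q : Seminorm 𝕜 E) (x : E) : q x ≤ pu b (fun n => q (b n)) x := by
  have h := map_sum_le b q (b.repr x).support (b.repr x)
  rw [show ∑ n ∈ (b.repr x).support, b.repr x n • b n = x from b.linearCombination_repr x] at h
  refine h.trans (le_trans (le_of_eq ?_)
    ((summ b _ x).sum_le_tsum (b.repr x).support fun n _ => by positivity))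
  exact Finset.sum_congr rfl fun n _ => by rw [abs_of_nonneg (apply_nonneg _ _)]

theorem coord_sm (n : ℕ) : Sm {i | (normSeminorm 𝕜 𝕜).comp (b.coord n) (b i) ≠ 0} := by
  refine (sm_le n).mono (sm_le n) fun i hi => Or.inl (mem_Iic.2 (not_lt.1 fun h => hi ?_))
  simp [Finsupp.single_eq_of_ne h.ne]

theorem sup_sm (s : Finset {q : Seminorm 𝕜 E // Sm {n | q (b n) ≠ 0}}) :
    Sm {n | s.sup (P b) (b n) ≠ 0} := by
  classical
  induction s using Finset.induction_on with
  | empty => exact (sm_le 0).mono (sm_le 0) fun n hn => absurd rfl hn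
  | insert a s _ ih =>
    refine a.2.mono ih fun n hn => by_contra fun h => hn ?_
    simp only [mem_union, mem_ofPred_eq, not_or, not_not] at h
    rw [Finset.sup_insert, Seminorm.sup_apply, h.2]
    exact max_eq_right h.1.le

theorem complete [UniformSpace E] [IsUniformAddGroup E] (hp : WithSeminorms (P b)) :
    CompleteSpace E := by
  refine ⟨fun {F} hF => ?_⟩
  have hc (n : ℕ) : Continuous (b.coord n) := (norm_withSeminorms 𝕜 𝕜).continuous_of_continuous_comp
    _ fun _ => hp.continuous_seminorm ⟨_, coord_sm b n⟩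
  choose z hz using fun n => CompleteSpace.complete
    (hF.map (uniformContinuous_of_continuousAt_zero (b.coord n) (hc n).continuousAt))
  obtain ⟨hne, hF2⟩ := (IsUniformAddGroup.cauchy_iff_tendsto F).1 hF
  have key (u : ℕ → ℝ) (hu : Sm {n | pu b u (b n) ≠ 0}) (ε : ℝ) (hε : 0 < ε) :
      ∀ᶠ x in F, ∀ s : Finset ℕ, ∑ n ∈ s, |u n| * ‖b.repr x n - z n‖ ≤ ε := by
    obtain ⟨A, hA, h⟩ := (eventually_prod_self_iff
      (r := fun x y => P b ⟨_, hu⟩ (x - y - 0) < ε)).1 ((hp.tendsto_nhds _ _).1 hF2 ⟨_, hu⟩ ε hε)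
    filter_upwards [hA] with x hx s
    refine le_of_tendsto (f := fun y => ∑ n ∈ s, |u n| * ‖b.repr x n - b.repr y n‖) (x := F)
      (tendsto_finsetSum _ fun n _ => ((tendsto_const_nhds.sub (hz n)).norm).const_mul _) ?_
    filter_upwards [hA] with y hy
    have h1 : pu b u (x - y - 0) < ε := h x hx y hy
    rw [sub_zero, pu_apply] at h1
    refine le_trans (le_of_eq ?_) (((summ b u (x - y)).sum_le_tsum s fun n _ => by positivity).trans
      h1.le)
    simp only [map_sub, Finsupp.sub_apply]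
  have hfin : (Function.support z).Finite := by
    by_contra hinf
    obtain ⟨I, h1, h2, h3⟩ := tall hinf
    obtain ⟨x, hx⟩ := (key (I.indicator fun n => ‖z n‖⁻¹)
      (pu_sm b h3 fun n hn => indicator_of_notMem hn _) 1 one_pos).exists
    obtain ⟨s, hs, hs2⟩ := (h2.sdiff (b.repr x).support.finite_toSet).exists_subset_card_eq 2
    have h4 := hx s
    rw [Finset.sum_congr rfl (g := fun _ => 1) fun n hn => by
      rw [indicator_of_mem (hs hn).1, Finsupp.notMem_support_iff.1 (hs hn).2, zero_sub, norm_neg,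
        abs_inv, abs_norm, inv_mul_cancel₀ (norm_ne_zero_iff.2 (h1 (hs hn).1))]] at h4
    norm_num [hs2] at h4
  refine ⟨b.repr.symm (Finsupp.ofSupportFinite z hfin), ?_⟩
  refine (hp.tendsto_nhds id _).2 fun q ε hε => ?_
  filter_upwards [key (fun n => q.1 (b n)) (pu_sm b q.2 fun n hn => not_not.1 hn) (ε / 2)
    (half_pos hε)] with x hx
  refine ((le_pu b q.1 _).trans ?_).trans_lt (half_lt_self hε)
  rw [pu_apply]
  refine (summ b _ _).tsum_le_of_sum_le fun s => le_trans (le_of_eq ?_) (hx s)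
  simp only [id, map_sub, Finsupp.sub_apply, LinearEquiv.apply_symm_apply]
  rfl

end

open Classical in
noncomputable def e (y : ℕ → ℕ → 𝕜) : ℕ → 𝕜[X]
  | 0 => 1
  | n + 1 => if IsSquare (n + 1) then X ^ (n + 1) - ∑ j : Fin (n + 1), y (n + 1) j • e y j
      else X * e y n
  decreasing_by
  · exact j.2
  · exact Nat.lt_succ_self n

theorem e_deg (y : ℕ → ℕ → 𝕜) (n : ℕ) : (e y n).degree = n := by
  induction n using Nat.strong_induction_on with
  | _ n ih =>
    rcases n with _ | n
    · simp [e]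
    · rw [e]
      split_ifs
      · rw [degree_sub_eq_left_of_degree_lt, degree_X_pow]
        rw [degree_X_pow]
        refine (degree_sum_le _ _).trans_lt ((Finset.sup_lt_iff (WithBot.bot_lt_coe _)).2
          fun j _ => (degree_smul_le _ _).trans_lt ?_)
        rw [ih j j.2]
        exact_mod_cast j.2
      · rw [degree_mul, degree_X, ih n (Nat.lt_succ_self n), add_comm]
        rfl

noncomputable def sq (y : ℕ → ℕ → 𝕜) : Polynomial.Sequence 𝕜 := ⟨e y, e_deg y⟩

noncomputable def bas (y : ℕ → ℕ → 𝕜) : Basis ℕ 𝕜 𝕜[X] :=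
  (sq y).basis fun i => (leadingCoeff_ne_zero.2 ((sq y).ne_zero i)).isUnit

theorem bas_eq (y : ℕ → ℕ → 𝕜) (n : ℕ) : bas y n = e y n := Polynomial.Sequence.basis_eq_self _ _ _

theorem pow_eq (y : ℕ → ℕ → 𝕜) {k : ℕ} (hk : 0 < k) : (X : 𝕜[X]) ^ (k * k) =
    bas y (k * k) + ∑ j ∈ Finset.range (k * k), y (k * k) j • bas y j := by
  obtain ⟨n, hn⟩ : ∃ n, k * k = n + 1 := Nat.exists_eq_succ_of_ne_zero (by positivity)
  simp only [bas_eq]
  rw [hn, e, if_pos ⟨k, hn.symm⟩, Finset.sum_range, sub_add_cancel]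

theorem result (𝕜 : Type) [RCLike 𝕜] : ∃ (E : Type) (_ : AddCommGroup E) (_ : Module 𝕜 E)
    (_ : Module ℝ E) (_ : IsScalarTower ℝ 𝕜 E) (_ : UniformSpace E) (_ : IsUniformAddGroup E)
    (_ : ContinuousSMul 𝕜 E), LocallyConvexSpace ℝ E ∧ T2Space E ∧ CompleteSpace E ∧
      Module.rank 𝕜 E = Cardinal.aleph0 ∧
      ∃ (T : E →L[𝕜] E) (x : E), DenseRange fun n : ℕ => T^[n] x := by
  classical
  obtain ⟨g, hg⟩ := exists_surjective_nat (ℕ →₀ ℕ)
  let d : ℕ → 𝕜 := fun n => if n = 0 then 0 else TopologicalSpace.denseSeq 𝕜 (n - 1)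
  let y : ℕ → ℕ → 𝕜 := fun n j => d (g (Nat.unpair (Nat.sqrt n)).1 j)
  let b := bas y
  let _t : TopologicalSpace 𝕜[X] := (P b).moduleFilterBasis.topology
  have hp : WithSeminorms (P b) := ⟨rfl⟩
  have := hp.topologicalAddGroup
  let _u : UniformSpace 𝕜[X] := IsTopologicalAddGroup.rightUniformSpace _
  have : IsUniformAddGroup 𝕜[X] := isUniformAddGroup_of_addCommGroup
  have : T1Space 𝕜[X] := hp.T1_of_separating fun x hx => by
    obtain ⟨n, hn⟩ := Finsupp.ne_iff.1 (b.repr.map_ne_zero_iff.2 hx)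
    exact ⟨⟨_, coord_sm b n⟩, norm_ne_zero_iff.2 hn⟩
  let T : 𝕜[X] →ₗ[𝕜] 𝕜[X] := LinearMap.mulLeft 𝕜 X
  have hT : Continuous T := hp.continuous_of_continuous_comp T fun q =>
    hp.continuous_seminorm ⟨q.1.comp T, q.2.pred.mono sm_sq fun n hn => by
      by_cases h : IsSquare (n + 1)
      · exact Or.inr h
      · refine Or.inl fun h0 => hn ?_
        rw [bas_eq, e, if_neg h, ← bas_eq] at h0
        exact h0⟩
  refine ⟨𝕜[X], inferInstance, inferInstance, inferInstance, inferInstance, inferInstance,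
    inferInstance, hp.continuousSMul, hp.toLocallyConvexSpace, inferInstance, complete b hp,
    b.mk_eq_rank''.symm.trans Cardinal.mk_nat, ⟨T, hT⟩, 1, fun x => ?_⟩
  have hit (n : ℕ) : (⟨T, hT⟩ : 𝕜[X] →L[𝕜] 𝕜[X])^[n] 1 = X ^ n := by
    induction n with
    | zero => simp
    | succ n ih => rw [Function.iterate_succ_apply', ih, pow_succ']; rfl
  refine (mem_closure_iff_nhds_basis hp.hasBasis_ball).2 fun ⟨s, ε⟩ hε => ?_
  have hq := sup_sm b s
  generalize s.sup (P b) = q at hq ⊢
  set S := (b.repr x).support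
  obtain ⟨δ, hδ, hδ2⟩ := exists_pos_mul_lt hε (∑ j ∈ S, q (b j))
  choose c hc using fun j => Metric.denseRange_iff.1 (TopologicalSpace.denseRange_denseSeq 𝕜)
    (b.repr x j) δ hδ
  obtain ⟨j, hj⟩ := hg (Finsupp.onFinset S (fun i => if i ∈ S then c i + 1 else 0)
    fun i hi => by by_contra h; exact hi (if_neg h))
  obtain ⟨k, h1, h2, h3⟩ := avoid hq j (S.sup id + 1)
  have hS : S ⊆ Finset.range (k * k) := fun i hi => Finset.mem_range.2 (by
    have : i ≤ S.sup id := Finset.le_sup (f := id) hi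
    have := Nat.le_mul_self k
    omega)
  have hy (i : ℕ) : y (k * k) i = d (if i ∈ S then c i + 1 else 0) := by
    simp only [y, Nat.sqrt_eq, h2, hj, Finsupp.onFinset_apply]
  have hz (i : ℕ) (hi : i ∉ S) : b.repr x i = 0 := Finsupp.notMem_support_iff.1 hi
  have hx : ∑ i ∈ Finset.range (k * k), b.repr x i • b i = x := by
    rw [← Finset.sum_subset hS fun i _ hi => by rw [hz i hi, zero_smul]]
    exact b.linearCombination_repr x
  refine ⟨_, ⟨k * k, hit _⟩, ?_⟩
  have hb : (X : 𝕜[X]) ^ (k * k) - x = b (k * k) +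
      ∑ i ∈ Finset.range (k * k), (y (k * k) i - b.repr x i) • b i := by
    simp only [sub_smul, Finset.sum_sub_distrib, hx]
    rw [pow_eq y (by omega), add_sub_assoc]
  rw [Seminorm.mem_ball, hb]
  refine lt_of_le_of_lt ((map_add_le_add q _ _).trans ?_) hδ2
  rw [not_not.1 h3, zero_add, Finset.sum_mul]
  refine (map_sum_le b q _ _).trans ?_
  rw [← Finset.sum_subset hS fun i _ hi => by rw [hz i hi, hy, if_neg hi]; simp [d]]
  refine Finset.sum_le_sum fun i hi => mul_le_mul_of_nonneg_left ?_ (apply_nonneg _ _)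
  rw [hy, if_pos hi, ← dist_eq_norm, dist_comm]
  simpa [d] using (hc i).le

end Pool.Agent.Results.MP_3984bd_an.Yes
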